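import Pool.Agent.Q323.Skew.Red

/-!
# Finding skew partitions of balanced size is NP-hard on perfect graphs

Reduction from CLIQUE.  The graph is bipartite: on one side it has the vertices of the given graph
and some further vertices, on the other side its edges and some further vertices; a vertex is
adjacent to the edges not incident to it, and the further vertices are adjacent to all vertices of
the other side.  Finally there are isolated vertices.  If `A, B, C, D` is a skew partition, then
`C` and `D` lie on different sides, and the numbers are chosen such that complete pairs of linear
size correspond to cliques of the given size.
-/

set_option autoImplicit false

namespace Pool.Agent.Results.MP_447f9a_lc.BalancedSkewHard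

open Pool.Agent.NPC Pool.Agent.H622R2 Pool.Agent.H673R2 Pool.Agent.H515R2.PP Pool.Agent.Q323.Skew

/-- **For every rational constant `c ≥ 4`, deciding whether a perfect graph has a skew partition of
balanced size with constant `c` is NP-hard** under polynomial-time many-one reductions. -/
theorem result (c : ℚ) (hc : 4 ≤ c) :
    NPHardOn (fun M : List (List Bool) => Perfect (matGraph M))
      (fun M => HasBSP c (matGraph M)) := hard c hc

end Pool.Agent.Results.MP_447f9a_lc.BalancedSkewHard
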